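import Pool.Agent.U854.SA.Core

/-!
The residues of normalized homogeneous coordinates at a valuation ring which extends the Gauss
valuation of algebraically independent coordinates.
-/

set_option autoImplicit false

namespace Pool.Agent.U854.SA

open NumberField IsDedekindDomain MvPolynomial

/-- A valuation ring `V` of `ℂ` above `v` with rational values, normalized homogeneous coordinates of a
given point, and their residues. -/
theorem place_res {K : Type} [Field K] [NumberField K] (σ : K →+* ℂ)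
    (v : HeightOneSpectrum (𝓞 K)) {p : ℕ} (hp : p.Prime) (hpv : (p : 𝓞 K) ∈ v.asIdeal)
    {ι : Type} [Fintype ι] [DecidableEq ι]
    {a b : ι → ℂ} (hab : ∀ i, a i ≠ 0 ∨ b i ≠ 0)
    (W : Finset ι) (hW : AlgebraicIndependent ℚ (fun i : W => a i / b i)) :
    ∃ V : ValuationSubring ℂ, (∀ a : 𝓞 K, V.valuation (σ a) ≤ 1) ∧
      (∀ a : 𝓞 K, V.valuation (σ a) < 1 ↔ a ∈ v.asIdeal) ∧ RatVal V p ∧
      ∃ (π : 𝓞 K →+* V) (k : Type) (_ : Field k) (_ : Algebra (𝓞 K ⧸ v.asIdeal) k) (res : V →+* k)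
        (l : ι → ℂ) (ξ ζ : ι → V),
        V.subtype.comp π = σ.comp (algebraMap (𝓞 K) K) ∧
        (algebraMap (𝓞 K ⧸ v.asIdeal) k).comp (Ideal.Quotient.mk v.asIdeal) = res.comp π ∧
        (∀ x : V, res x = 0 ↔ V.valuation (x : ℂ) < 1) ∧
        (∀ i, l i ≠ 0) ∧ (∀ i, (ξ i : ℂ) = l i * a i) ∧ (∀ i, (ζ i : ℂ) = l i * b i) ∧
        (∀ i, res (ξ i) ≠ 0 ∨ res (ζ i) ≠ 0) ∧
        AlgebraicIndependent (𝓞 K ⧸ v.asIdeal) (fun i : W => res (ξ i) / res (ζ i)) := by
  classical
  obtain ⟨V, hA1, hA2, hrat, hyW, hV2⟩ := exists_place σ v hp hpv (fun i : W => a i / b i) hW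
  refine ⟨V, hA1, hA2, hrat, ?_⟩
  -- the residues
  let π : 𝓞 K →+* V :=
    { toFun := fun a => ⟨σ a, (V.valuation_le_one_iff _).1 (hA1 a)⟩
      map_one' := Subtype.ext (by simp)
      map_mul' := fun a b => Subtype.ext (by simp)
      map_zero' := Subtype.ext (by simp)
      map_add' := fun a b => Subtype.ext (by simp) }
  let κ := IsLocalRing.ResidueField V
  let res : V →+* κ := IsLocalRing.residue V
  have hker : ∀ a ∈ v.asIdeal, (res.comp π) a = 0 := by
    intro a ha
    show IsLocalRing.residue V (π a) = 0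
    rw [IsLocalRing.residue_eq_zero_iff, V.valuation_lt_one_iff]
    exact (hA2 a).2 ha
  let _ : Algebra (𝓞 K ⧸ v.asIdeal) κ := (Ideal.Quotient.lift v.asIdeal (res.comp π) hker).toAlgebra
  have hres : (algebraMap (𝓞 K ⧸ v.asIdeal) κ).comp (Ideal.Quotient.mk v.asIdeal) = res.comp π := by
    ext a
    rfl
  -- the coordinates
  have hco : ∀ i, ∃ (l : ℂ) (ξ ζ : V), l ≠ 0 ∧ (ξ : ℂ) = l * a i ∧ (ζ : ℂ) = l * b i ∧
      (res ξ ≠ 0 ∨ res ζ ≠ 0) ∧
      (b i ≠ 0 → a i / b i ∈ V → ζ = 1 ∧ (ξ : ℂ) = a i / b i) := by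
    intro i
    by_cases hb : b i = 0
    · have ha : a i ≠ 0 := (hab i).resolve_right (fun h => h hb)
      refine ⟨(a i)⁻¹, 1, 0, inv_ne_zero ha, ?_, ?_, Or.inl (by simp), fun h => absurd hb h⟩
      · rw [inv_mul_cancel₀ ha]
        rfl
      · rw [hb, mul_zero]
        rfl
    by_cases hi : a i / b i ∈ V
    · refine ⟨(b i)⁻¹, ⟨a i / b i, hi⟩, 1, inv_ne_zero hb, ?_, ?_, Or.inr (by simp),
        fun _ _ => ⟨rfl, rfl⟩⟩
      · show a i / b i = _
        rw [div_eq_mul_inv, mul_comm]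
      · rw [inv_mul_cancel₀ hb]
        rfl
    · have hgt : 1 < V.valuation (a i / b i) := by
        rw [← not_le, V.valuation_le_one_iff]
        exact hi
      have hne : a i / b i ≠ 0 := by
        rintro h
        rw [h, map_zero] at hgt
        exact absurd hgt (not_lt.2 zero_le)
      have ha : a i ≠ 0 := fun h => hne (by rw [h, zero_div])
      have hinv : (a i / b i)⁻¹ ∈ V := (V.mem_or_inv_mem (a i / b i)).resolve_left hi
      refine ⟨(a i)⁻¹, 1, ⟨(a i / b i)⁻¹, hinv⟩, inv_ne_zero ha, ?_, ?_, Or.inl (by simp),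
        fun _ h => absurd h hi⟩
      · rw [inv_mul_cancel₀ ha]
        rfl
      · show (a i / b i)⁻¹ = _
        rw [inv_div, div_eq_mul_inv, mul_comm]
  choose l ξ ζ hl hξ hζ hne hone using hco
  have hbW : ∀ i ∈ W, b i ≠ 0 := by
    intro i hi h
    have h1 := hW.transcendental ⟨i, hi⟩
    apply h1
    show IsAlgebraic ℚ (a i / b i)
    rw [h, div_zero]
    exact isAlgebraic_zero
  have hind : AlgebraicIndependent (𝓞 K ⧸ v.asIdeal) (fun i : W => res (ξ i) / res (ζ i)) := by
    have e : (fun i : W => res (ξ i) / res (ζ i)) = fun i : W => res (ξ i) := by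
      funext i
      rw [(hone i (hbW i i.2) (hyW i)).1, map_one, div_one]
    rw [e, algebraicIndependent_iff]
    intro Q hQ
    obtain ⟨Q, rfl⟩ := MvPolynomial.map_surjective (Ideal.Quotient.mk v.asIdeal)
      Ideal.Quotient.mk_surjective Q
    rw [← hV2 Q]
    have h2 : MvPolynomial.eval₂ (σ.comp (algebraMap (𝓞 K) K)) (fun i : W => a i / b i) Q =
        ((MvPolynomial.eval₂ π (fun i : W => ξ i) Q : V) : ℂ) := by
      have h3 := MvPolynomial.eval₂_comp_left V.subtype π (fun i : W => ξ i) Q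
      have h4 : (fun i : W => a i / b i) = V.subtype ∘ fun i : W => ξ i := by
        funext i
        exact ((hone i (hbW i i.2) (hyW i)).2).symm
      rw [h4]
      exact h3.symm
    rw [h2, ← V.valuation_lt_one_iff, ← IsLocalRing.residue_eq_zero_iff]
    have h5 := MvPolynomial.eval₂_comp_left res π (fun i : W => ξ i) Q
    have h6 : MvPolynomial.aeval (fun i : W => res (ξ i))
        (MvPolynomial.map (Ideal.Quotient.mk v.asIdeal) Q) =
        MvPolynomial.eval₂ (res.comp π) (res ∘ fun i : W => ξ i) Q := by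
      rw [MvPolynomial.aeval_def, MvPolynomial.eval₂_map, hres]
      rfl
    rw [h6, ← h5] at hQ
    exact hQ
  refine ⟨π, κ, inferInstance, inferInstance, res, l, ξ, ζ, ?_, hres, ?_, hl, hξ, hζ, hne, hind⟩
  · ext a
    rfl
  · intro x
    rw [← V.valuation_lt_one_iff]
    exact IsLocalRing.residue_eq_zero_iff x

end Pool.Agent.U854.SA
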