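import Pool.Agent.TH971.RF.C2
import Pool.Agent.U854.OP.Core

/-!
Points of an elliptic curve near to torsion points at different distances are independent over the
ring of endomorphisms.
-/

set_option autoImplicit false

namespace Pool.Agent.U854.SA

open WeierstrassCurve WeierstrassCurve.Affine Pool.Agent.W466.EP Pool.Agent.TH971.RF

/-- A point whose `x`-coordinate is near to the one of a point `T` is, up to a translation by `T` or
`-T`, near to the origin. -/
theorem near_point {A B : ℂ} {Γ₀ : Type*} [LinearOrderedCommGroupWithZero Γ₀]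
    {v : Valuation ℂ Γ₀} (hA : v A ≤ 1) (h2 : v 2 = 1) {x y x' y' : ℂ}
    (h : (crv A B).Nonsingular x y) (h' : (crv A B).Nonsingular x' y') (hx' : v x' ≤ 1)
    (hy' : v y' = 1) (hd : v (x - x') < 1) (hne : x ≠ x') :
    ∃ Q : (crv A B).Point, (Q = Point.some x' y' h' ∨ Q = -Point.some x' y' h') ∧
      v (xx (Point.some x y h + Q)) * v (x - x') ^ 2 = 1 := by
  have e1 := eqn h
  have e2 := eqn h'
  have hx : v x ≤ 1 := by
    have : x = (x - x') + x' := by ring
    rw [this]
    exact v.map_add_le hd.le hx'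
  have hprod : v ((y - y') * (y + y')) < 1 := by
    have e3 : (y - y') * (y + y') = (x - x') * (x ^ 2 + x * x' + x' ^ 2 + A) := by
      linear_combination e1 - e2
    rw [e3, map_mul]
    refine (mul_le_of_le_one_right' ?_).trans_lt hd
    refine v.map_add_le (v.map_add_le (v.map_add_le ?_ ?_) ?_) hA
    · rw [map_pow]
      exact pow_le_one₀ zero_le hx
    · rw [map_mul]
      exact mul_le_one' hx hx'
    · rw [map_pow]
      exact pow_le_one₀ zero_le hx'
  have hy : v y ≤ 1 := by
    by_contra hcon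
    push Not at hcon
    have h3 : v (y - y') = v y := by
      rw [sub_eq_add_neg, Valuation.map_add_eq_of_lt_left]
      rw [Valuation.map_neg, hy']
      exact hcon
    have h4 : v (y + y') = v y := by
      rw [Valuation.map_add_eq_of_lt_left]
      rw [hy']
      exact hcon
    rw [map_mul, h3, h4] at hprod
    exact absurd hprod (not_lt.2 (one_le_mul hcon.le hcon.le))
  have hm : v (y - y') ≤ 1 := v.map_sub_le hy hy'.le
  have hq : v (y + y') ≤ 1 := v.map_add_le hy hy'.le
  have hor : v (y - y') = 1 ∨ v (y + y') = 1 := by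
    by_contra hcon
    push Not at hcon
    have h3 : v ((y + y') - (y - y')) < 1 :=
      v.map_sub_lt (lt_of_le_of_ne hq hcon.2) (lt_of_le_of_ne hm hcon.1)
    have h4 : (y + y') - (y - y') = 2 * y' := by ring
    rw [h4, map_mul, h2, hy', one_mul] at h3
    exact lt_irrefl _ h3
  have hd0 : x - x' ≠ 0 := sub_ne_zero.2 hne
  have hvd : v (x - x') ≠ 0 := (map_ne_zero v).2 hd0
  have hvd2 : v (x - x') ^ 2 < 1 := pow_lt_one₀ zero_le hd two_ne_zero
  have key : ∀ s : ℂ, v s = 1 → v ((s / (x - x')) ^ 2 - x - x') * v (x - x') ^ 2 = 1 := by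
    intro s hs
    have h3 : v ((s / (x - x')) ^ 2) * v (x - x') ^ 2 = 1 := by
      rw [map_pow, map_div₀, hs, div_pow, one_pow, one_div_mul_cancel (pow_ne_zero 2 hvd)]
    have h4 : 1 < v ((s / (x - x')) ^ 2) := by
      by_contra hcon
      push Not at hcon
      have h5 : v ((s / (x - x')) ^ 2) * v (x - x') ^ 2 < 1 :=
        (mul_le_of_le_one_left' hcon).trans_lt hvd2
      rw [h3] at h5
      exact lt_irrefl _ h5
    have h6 : v (x + x') ≤ 1 := v.map_add_le hx hx'
    have h7 : (s / (x - x')) ^ 2 - x - x' = (s / (x - x')) ^ 2 + -(x + x') := by ring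
    rw [h7, Valuation.map_add_eq_of_lt_left, h3]
    rw [Valuation.map_neg]
    exact h6.trans_lt h4
  have hadd : ∀ (z : ℂ) (hz : (crv A B).Nonsingular x' z),
      xx (Point.some x y h + Point.some x' z hz) = ((y - z) / (x - x')) ^ 2 - x - x' := by
    intro z hz
    have hxy : ¬ (x = x' ∧ y = (crv A B).negY x' z) := fun h => hne h.1
    rw [Point.add_some hxy]
    show (crv A B).addX x x' ((crv A B).slope x x' y z) = _
    rw [slope_of_X_ne hne]
    simp only [addX, crv_a1, crv_a2]
    ring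
  rcases hor with h3 | h3
  · refine ⟨Point.some x' y' h', Or.inl rfl, ?_⟩
    rw [hadd y' h']
    exact key _ h3
  · refine ⟨-Point.some x' y' h', Or.inr rfl, ?_⟩
    have e4 : -Point.some x' y' h' = Point.some x' ((crv A B).negY x' y')
        ((nonsingular_neg ..).2 h') := rfl
    rw [e4, hadd]
    have e5 : y - (crv A B).negY x' y' = y + y' := by
      rw [negY, crv_a1, crv_a3]
      ring
    rw [e5]
    exact key _ h3

/-- There is no relation with endomorphisms as coefficients between points near to torsion points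
with different levels. -/
theorem no_relation {p : ℕ} (hp : p.Prime) {V : ValuationSubring ℂ}
    (hV : (p : ℂ) ∈ V.nonunits)
    (harch : ∀ z : ℂ, ∃ M : ℕ, V.valuation z * V.valuation (p : ℂ) ^ M ≤ 1) {A B : ℂ}
    (hA : V.valuation A ≤ 1) (hB : V.valuation B ≤ 1) (S : EndRing A B)
    {ρ : V.ValueGroup} {R : ℕ} (hR : V.valuation (p : ℂ) = ρ ^ R) (hR0 : 0 < R) (hρ0 : 0 < ρ)
    {ι : Type} [Fintype ι] [DecidableEq ι] (P : ι → (crv A B).Point) (J : Finset ι) (f : ι → ℕ)
    (hf : ∀ i ∈ J, ∃ (N : ℕ) (T : (crv A B).Point), 0 < N ∧ N • T = 0 ∧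
      V.valuation (xx (P i + T)) * ρ ^ f i = 1)
    (hfR : ∀ i ∈ J, R < 2 * f i) (hdis : ∀ i ∈ J, ∀ j ∈ J, i ≠ j → ¬ f i ≡ f j [MOD R])
    (a : ι → S.O) (ha0 : a ≠ 0) (haJ : ∀ i, i ∉ J → a i = 0) {t : ℕ} (ht : 0 < t)
    (hrel : t • ∑ i, S.act (a i) (P i) = 0) : False := by
  classical
  have hex : ∀ i, ∃ (N : ℕ) (T : (crv A B).Point), 0 < N ∧ N • T = 0 ∧
      (i ∈ J → V.valuation (xx (P i + T)) * ρ ^ f i = 1) := by
    intro i
    by_cases hi : i ∈ J
    · obtain ⟨N, T, h1, h2, h3⟩ := hf i hi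
      exact ⟨N, T, h1, h2, fun _ => h3⟩
    · exact ⟨1, 0, one_pos, by simp, fun h => absurd h hi⟩
  choose N T hN hT hv using hex
  let NN : ℕ := ∏ i, N i
  have hNN : 0 < NN := Finset.prod_pos fun i _ => hN i
  have hNT : ∀ i, NN • T i = 0 := by
    intro i
    obtain ⟨c, hc⟩ : N i ∣ NN := Finset.dvd_prod_of_mem N (Finset.mem_univ i)
    rw [hc, mul_nsmul, hT i, nsmul_zero]
  let e : ι ≃ Fin (Fintype.card ι) := Fintype.equivFin ι
  have hsum : (t * NN) • ∑ i, S.act (a i) (P i + T i) = 0 := by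
    have h1 : ∑ i, S.act (a i) (P i + T i) =
        ∑ i, S.act (a i) (P i) + ∑ i, S.act (a i) (T i) := by
      rw [← Finset.sum_add_distrib]
      exact Finset.sum_congr rfl fun i _ => map_add _ _ _
    have h2 : NN • ∑ i, S.act (a i) (T i) = 0 := by
      rw [Finset.smul_sum]
      refine Finset.sum_eq_zero fun i _ => ?_
      rw [← map_nsmul, hNT i, map_zero]
    rw [h1, nsmul_add, mul_nsmul, hrel, nsmul_zero, zero_add, mul_comm, mul_nsmul, h2,
      nsmul_zero]
  have h1e : (1 : ℂ) ≠ 0 := one_ne_zero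
  refine rel_placeE hp hV harch h1e (by rw [one_pow, one_mul]; exact hA)
    (by rw [one_pow, one_mul]; exact hB) S hR hR0 hρ0 (fun l => P (e.symm l) + T (e.symm l))
    (J.map e.toEmbedding) (fun l => f (e.symm l)) ?_ ?_ ?_ (fun l => a (e.symm l)) ?_ ?_
    (Nat.mul_pos ht hNN) ?_
  · intro l hl
    obtain ⟨i, hi, rfl⟩ := Finset.mem_map.1 hl
    rw [xx_scl, one_pow, one_mul]
    simpa using hv i hi
  · intro l hl
    obtain ⟨i, hi, rfl⟩ := Finset.mem_map.1 hl
    simpa using hfR i hi
  · intro l hl l' hl' hne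
    obtain ⟨i, hi, rfl⟩ := Finset.mem_map.1 hl
    obtain ⟨j, hj, rfl⟩ := Finset.mem_map.1 hl'
    have := hdis i hi j hj (fun h => hne (by rw [h]))
    simpa using this
  · intro h
    apply ha0
    funext i
    have := congrFun h (e i)
    simpa using this
  · intro l hl
    refine haJ _ fun h => hl ?_
    rw [Finset.mem_map]
    exact ⟨e.symm l, h, by simp⟩
  · rw [← hsum]
    congr 1
    exact Fintype.sum_equiv e.symm _ _ (fun l => rfl)

end Pool.Agent.U854.SA
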