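import Pool.Agent.U854.SA.Form

/-!
Above every place of a number field there is a valuation ring of `ℂ` with rational values which
extends the Gauss valuation of the algebraically independent coordinates.
-/

set_option autoImplicit false

namespace Pool.Agent.U854.SA

open NumberField IsDedekindDomain MvPolynomial

/-- In a vanishing sum two of the terms of maximal value have the same value. -/
theorem exists_pair_val {K ι : Type*} [Field K] (V : ValuationSubring K) (A : Finset ι)
    (hA : A.Nonempty) (z : ι → K) (hz : ∀ i ∈ A, z i ≠ 0) (h0 : ∑ i ∈ A, z i = 0) :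
    ∃ a ∈ A, ∃ b ∈ A, a ≠ b ∧ V.valuation (z a) = V.valuation (z b) := by
  classical
  obtain ⟨a, ha, hmax⟩ := A.exists_max_image (fun i => V.valuation (z i)) hA
  by_contra hcon
  push Not at hcon
  have hlt : ∀ b ∈ A.erase a, V.valuation (z b) < V.valuation (z a) := by
    intro b hb
    obtain ⟨hba, hbA⟩ := Finset.mem_erase.1 hb
    exact lt_of_le_of_ne (hmax b hbA) fun h => hcon a ha b hbA (Ne.symm hba) h.symm
  have h1 : V.valuation (∑ b ∈ A.erase a, z b) < V.valuation (z a) :=
    Valuation.map_sum_lt _ ((Valuation.ne_zero_iff _).2 (hz a ha)) hlt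
  have h2 : z a = - ∑ b ∈ A.erase a, z b := by
    rw [← Finset.add_sum_erase A z ha] at h0
    exact eq_neg_of_add_eq_zero_left h0
  have h3 : V.valuation (z a) = V.valuation (∑ b ∈ A.erase a, z b) := by
    conv_lhs => rw [h2]
    rw [Valuation.map_neg]
  exact absurd h3 h1.ne'

/-- all values are rational multiples of the value of `p` -/
def RatVal (V : ValuationSubring ℂ) (p : ℕ) : Prop :=
  ∀ z : ℂ, z ≠ 0 → ∃ n : ℕ, 0 < n ∧ ∃ k : ℤ, V.valuation z ^ n = V.valuation (p : ℂ) ^ k

theorem RatVal.arch {V : ValuationSubring ℂ} {p : ℕ} (hp1 : V.valuation (p : ℂ) < 1)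
    (hp0 : V.valuation (p : ℂ) ≠ 0) (h : RatVal V p) (z : ℂ) :
    ∃ M : ℕ, V.valuation z * V.valuation (p : ℂ) ^ M ≤ 1 := by
  by_cases hz : z = 0
  · exact ⟨0, by rw [hz, map_zero, zero_mul]; exact zero_le_one⟩
  obtain ⟨n, hn, k, hk⟩ := h z hz
  refine ⟨k.natAbs, ?_⟩
  by_contra hcon
  push Not at hcon
  have h1 := one_lt_pow₀ hcon hn.ne'
  rw [mul_pow, hk, ← pow_mul, ← zpow_natCast, ← zpow_add₀ hp0] at h1
  have h2 : (0 : ℤ) ≤ k + ((k.natAbs * n : ℕ) : ℤ) := by
    push_cast
    have h3 : -|k| ≤ k := neg_abs_le k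
    have h4 : |k| * 1 ≤ |k| * (n : ℤ) := by
      gcongr
      exact_mod_cast hn
    omega
  obtain ⟨m, hm⟩ := Int.eq_ofNat_of_zero_le h2
  rw [hm, zpow_natCast] at h1
  exact absurd h1 (not_lt.2 (pow_le_one₀ zero_le hp1.le))

/-- the Gauss valuation, with rational values -/
theorem exists_place {K : Type} [Field K] [NumberField K] (σ : K →+* ℂ)
    (v : HeightOneSpectrum (𝓞 K)) {p : ℕ} (hp : p.Prime) (hpv : (p : 𝓞 K) ∈ v.asIdeal)
    {W : Type} (y : W → ℂ) (hy : AlgebraicIndependent ℚ y) :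
    ∃ V : ValuationSubring ℂ, (∀ a : 𝓞 K, V.valuation (σ a) ≤ 1) ∧
      (∀ a : 𝓞 K, V.valuation (σ a) < 1 ↔ a ∈ v.asIdeal) ∧ RatVal V p ∧
      (∀ i, y i ∈ V) ∧
      (∀ Q : MvPolynomial W (𝓞 K),
        V.valuation (MvPolynomial.eval₂ (σ.comp (algebraMap (𝓞 K) K)) y Q) < 1 ↔
        MvPolynomial.map (Ideal.Quotient.mk v.asIdeal) Q = 0) := by
  classical
  let _ : Algebra K ℂ := σ.toAlgebra
  let _ : Algebra (𝓞 K) ℂ := (σ.comp (algebraMap (𝓞 K) K)).toAlgebra
  have _ : IsScalarTower (𝓞 K) K ℂ := IsScalarTower.of_algebraMap_eq (fun _ => rfl)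
  have hmap : ∀ a : 𝓞 K, algebraMap (𝓞 K) ℂ a = σ a := fun _ => rfl
  have hprime : v.asIdeal.IsPrime := v.isPrime
  -- the transcendence basis
  have hyZ : AlgebraicIndependent ℤ y := hy.restrictScalars (Int.cast_injective (α := ℚ))
  have hyinj : Function.Injective y := hy.injective
  have hr : AlgebraicIndepOn ℤ id (Set.range y) := hyZ.coe_range
  obtain ⟨s, hys, hs⟩ := exists_isTranscendenceBasis_superset hr
  have : Algebra.IsAlgebraic ℤ ℚ := IsLocalization.isAlgebraic ℚ (nonZeroDivisors ℤ)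
  have hsQ : AlgebraicIndependent ℚ ((↑) : s → ℂ) := hs.1.extendScalars ℚ
  have halg : Algebra.IsAlgebraic (Algebra.adjoin ℤ (Set.range ((↑) : s → ℂ))) ℂ := hs.isAlgebraic
  have hsK : AlgebraicIndependent K ((↑) : s → ℂ) := hsQ.extendScalars K
  have hsO : AlgebraicIndependent (𝓞 K) ((↑) : s → ℂ) :=
    hsK.restrictScalars (RingOfIntegers.coe_injective)
  obtain ⟨V, hV1, hV2⟩ := Pool.Agent.N135.ZO.exists_place_gauss v.asIdeal ((↑) : s → ℂ) hsO
  have hA1 : ∀ a : 𝓞 K, V.valuation (σ a) ≤ 1 := by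
    intro a
    have := hV1 (MvPolynomial.C a)
    rwa [MvPolynomial.aeval_C] at this
  have hA2 : ∀ a : 𝓞 K, V.valuation (σ a) < 1 ↔ a ∈ v.asIdeal := by
    intro a
    have := hV2 (MvPolynomial.C a)
    rw [MvPolynomial.aeval_C, hmap, MvPolynomial.map_C, MvPolynomial.C_eq_zero,
      Ideal.Quotient.eq_zero_iff_mem] at this
    exact this
  have hyW : ∀ i, y i ∈ V := by
    intro i
    have := hV1 (MvPolynomial.X ⟨y i, hys ⟨i, rfl⟩⟩)
    rw [MvPolynomial.aeval_X] at this
    exact (V.valuation_le_one_iff _).1 this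
  refine ⟨V, hA1, hA2, ?_, hyW, ?_⟩
  · -- rational values
    set w := V.valuation with hw
    have hpC : (p : ℂ) ≠ 0 := by exact_mod_cast hp.ne_zero
    have hp0 : w (p : ℂ) ≠ 0 := (Valuation.ne_zero_iff _).2 hpC
    have hunit : ∀ f : MvPolynomial s ℤ, ¬ C (p : ℤ) ∣ f → w (aeval ((↑) : s → ℂ) f) = 1 := by
      intro f hf
      have h1 := hV1 (MvPolynomial.map (Int.castRingHom (𝓞 K)) f)
      have h2 := hV2 (MvPolynomial.map (Int.castRingHom (𝓞 K)) f)
      have h3 : aeval ((↑) : s → ℂ) (MvPolynomial.map (Int.castRingHom (𝓞 K)) f) =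
          aeval ((↑) : s → ℂ) f := by
        rw [aeval_def, eval₂_map, aeval_def]
        congr 1
        exact RingHom.ext_int _ _
      rw [h3] at h1 h2
      refine le_antisymm h1 (not_lt.1 fun h => hf ?_)
      have h4 := h2.1 h
      rw [C_dvd_iff_dvd_coeff]
      intro m
      have h5 := congrArg (MvPolynomial.coeff m) h4
      rw [MvPolynomial.coeff_map, MvPolynomial.coeff_map, MvPolynomial.coeff_zero,
        Ideal.Quotient.eq_zero_iff_mem] at h5
      by_contra hnd
      have hcop : IsCoprime (f.coeff m) (p : ℤ) :=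
        ((Nat.prime_iff_prime_int.1 hp).coprime_iff_not_dvd.2 hnd).symm
      obtain ⟨a, b, hab⟩ := hcop
      apply v.isPrime.ne_top
      rw [Ideal.eq_top_iff_one]
      have h6 : ((a * f.coeff m + b * p : ℤ) : 𝓞 K) = 1 := by rw [hab, Int.cast_one]
      rw [← h6]
      push_cast
      exact v.asIdeal.add_mem (v.asIdeal.mul_mem_left _ h5) (v.asIdeal.mul_mem_left _ hpv)
    have hval : ∀ (N : ℕ) (f : MvPolynomial s ℤ) (m : s →₀ ℕ), (f.coeff m).natAbs ≤ N →
        f.coeff m ≠ 0 → ∃ k : ℕ, w (aeval ((↑) : s → ℂ) f) = w (p : ℂ) ^ k := by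
      intro N
      induction N with
      | zero =>
        intro f m h1 h2
        exact absurd (Int.natAbs_eq_zero.1 (Nat.le_zero.1 h1)) h2
      | succ N ih =>
        intro f m h1 h2
        by_cases hd : C (p : ℤ) ∣ f
        · obtain ⟨f', rfl⟩ := hd
          have h3 : (C (p : ℤ) * f').coeff m = p * f'.coeff m := by rw [coeff_C_mul]
          rw [h3] at h1 h2
          have h4 : f'.coeff m ≠ 0 := right_ne_zero_of_mul h2
          have h5 : (f'.coeff m).natAbs ≤ N := by
            rw [Int.natAbs_mul, Int.natAbs_natCast] at h1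
            have h6 := Int.natAbs_pos.2 h4
            have h7 : 2 * (f'.coeff m).natAbs ≤ p * (f'.coeff m).natAbs :=
              Nat.mul_le_mul_right _ hp.two_le
            omega
          obtain ⟨k, hk⟩ := ih f' m h5 h4
          refine ⟨k + 1, ?_⟩
          rw [map_mul, aeval_C, map_mul, hk, pow_succ']
          simp
        · exact ⟨0, by rw [pow_zero]; exact hunit f hd⟩
    have hcoef : ∀ a : Algebra.adjoin ℤ (Set.range ((↑) : s → ℂ)), a ≠ 0 →
        ∃ k : ℕ, w (a : ℂ) = w (p : ℂ) ^ k := by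
      intro a ha
      have h2 : (a : ℂ) ∈ (aeval ((↑) : s → ℂ) : MvPolynomial s ℤ →ₐ[ℤ] ℂ).range := by
        rw [← Algebra.adjoin_range_eq_range_aeval]
        exact a.2
      obtain ⟨f, hf⟩ := h2
      have hf0 : f ≠ 0 := by
        rintro rfl
        apply ha
        apply Subtype.ext
        rw [← hf]
        simp
      obtain ⟨m, hm⟩ : ∃ m, f.coeff m ≠ 0 := by
        by_contra h
        push Not at h
        exact hf0 (MvPolynomial.ext _ _ fun m => by rw [h m, coeff_zero])
      obtain ⟨k, hk⟩ := hval _ f m le_rfl hm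
      exact ⟨k, by rw [← hf]; exact hk⟩
    intro z hz
    obtain ⟨f, hf0, hf⟩ := halg.1 z
    have hsum : ∑ i ∈ f.support, ((f.coeff i : ℂ)) * z ^ i = 0 := by
      rw [Polynomial.aeval_def, Polynomial.eval₂_eq_sum, Polynomial.sum_def] at hf
      exact hf
    have hne : ∀ i ∈ f.support, ((f.coeff i : ℂ)) * z ^ i ≠ 0 := by
      intro i hi
      refine mul_ne_zero (fun h => ?_) (pow_ne_zero _ hz)
      exact (Polynomial.mem_support_iff.1 hi) (Subtype.ext h)
    obtain ⟨i, hi, j, hj, hij, heq⟩ := exists_pair_val V f.support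
      (Polynomial.support_nonempty.2 hf0) (fun i => ((f.coeff i : ℂ)) * z ^ i) hne hsum
    obtain ⟨ki, hki⟩ := hcoef _ (Polynomial.mem_support_iff.1 hi)
    obtain ⟨kj, hkj⟩ := hcoef _ (Polynomial.mem_support_iff.1 hj)
    have hvz : w z ≠ 0 := (Valuation.ne_zero_iff _).2 hz
    have h1 : w (p : ℂ) ^ ki * w z ^ i = w (p : ℂ) ^ kj * w z ^ j := by
      have h2 := heq
      simp only [map_mul, map_pow] at h2
      rwa [← hw, hki, hkj] at h2
    have key : ∀ (i j ki kj : ℕ), i < j → w (p : ℂ) ^ ki * w z ^ i = w (p : ℂ) ^ kj * w z ^ j →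
        ∃ n : ℕ, 0 < n ∧ ∃ k : ℤ, w z ^ n = w (p : ℂ) ^ k := by
      intro i j ki kj hlt h
      refine ⟨j - i, by omega, (ki : ℤ) - kj, ?_⟩
      rw [zpow_sub₀ hp0, zpow_natCast, zpow_natCast, eq_div_iff (pow_ne_zero _ hp0)]
      have h2 : w z ^ j = w z ^ (j - i) * w z ^ i := by
        rw [← pow_add]
        congr 1
        omega
      rw [h2, ← mul_assoc] at h
      have h3 := mul_right_cancel₀ (pow_ne_zero i hvz) h
      rw [mul_comm]
      exact h3.symm
    rcases lt_or_gt_of_ne hij with hlt | hlt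
    · exact key i j ki kj hlt h1
    · exact key j i kj ki hlt h1.symm
  · intro Q
    let e : W → s := fun i => ⟨y i, hys ⟨i, rfl⟩⟩
    have he : Function.Injective e := fun i j h => hyinj (congrArg Subtype.val h)
    have h1 := hV2 (MvPolynomial.rename e Q)
    rw [MvPolynomial.aeval_rename, MvPolynomial.map_rename] at h1
    have h2 : MvPolynomial.aeval (((↑) : s → ℂ) ∘ e) Q =
        MvPolynomial.eval₂ (σ.comp (algebraMap (𝓞 K) K)) y Q := rfl
    rw [h2] at h1
    rw [h1]
    constructor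
    · intro h
      refine MvPolynomial.rename_injective e he ?_
      rw [h, map_zero]
    · intro h
      rw [h, map_zero]

/-- The coordinates which are not units at a suitable place are few. The points are given by
homogeneous coordinates. -/
theorem place_core {K : Type} [Field K] [NumberField K] (σ : K →+* ℂ)
    (v : HeightOneSpectrum (𝓞 K)) {p : ℕ} (hp : p.Prime) (hpv : (p : 𝓞 K) ∈ v.asIdeal)
    {ι : Type} [Fintype ι] [DecidableEq ι]
    {T : Type} (F : T → Form (𝓞 K) ι) {m : ℕ} (hgen : GenPos v.asIdeal F m)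
    {a b : ι → ℂ} (hab : ∀ i, a i ≠ 0 ∨ b i ≠ 0)
    (hF : ∀ t, (F t).eval (σ.comp (algebraMap (𝓞 K) K)) a b = 0)
    (W : Finset ι) (hW : AlgebraicIndependent ℚ (fun i : W => a i / b i)) :
    ∃ V : ValuationSubring ℂ, (∀ a : 𝓞 K, V.valuation (σ a) ≤ 1) ∧
      (∀ a : 𝓞 K, V.valuation (σ a) < 1 ↔ a ∈ v.asIdeal) ∧ RatVal V p ∧
      {i | V.valuation (a i / b i) ≠ 1}.ncard + W.card ≤ m := by
  classical
  obtain ⟨V, hA1, hA2, hrat, hyW, hV2⟩ := exists_place σ v hp hpv (fun i : W => a i / b i) hW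
  refine ⟨V, hA1, hA2, hrat, ?_⟩
  -- the residues
  let π : 𝓞 K →+* V :=
    { toFun := fun a => ⟨σ a, (V.valuation_le_one_iff _).1 (hA1 a)⟩
      map_one' := Subtype.ext (by simp)
      map_mul' := fun a b => Subtype.ext (by simp)
      map_zero' := Subtype.ext (by simp)
      map_add' := fun a b => Subtype.ext (by simp) }
  let κ := IsLocalRing.ResidueField V
  let res : V →+* κ := IsLocalRing.residue V
  have hker : ∀ a ∈ v.asIdeal, (res.comp π) a = 0 := by
    intro a ha
    show IsLocalRing.residue V (π a) = 0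
    rw [IsLocalRing.residue_eq_zero_iff, V.valuation_lt_one_iff]
    exact (hA2 a).2 ha
  let _ : Algebra (𝓞 K ⧸ v.asIdeal) κ := (Ideal.Quotient.lift v.asIdeal (res.comp π) hker).toAlgebra
  have hres : (algebraMap (𝓞 K ⧸ v.asIdeal) κ).comp (Ideal.Quotient.mk v.asIdeal) = res.comp π := by
    ext a
    rfl
  -- the coordinates
  have hco : ∀ i, ∃ (l : ℂ) (ξ ζ : V), (ξ : ℂ) = l * a i ∧ (ζ : ℂ) = l * b i ∧
      (res ξ ≠ 0 ∨ res ζ ≠ 0) ∧
      (V.valuation (a i / b i) ≠ 1 → res ξ = 0 ∨ res ζ = 0) ∧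
      (b i ≠ 0 → a i / b i ∈ V → ζ = 1 ∧ (ξ : ℂ) = a i / b i) := by
    intro i
    by_cases hb : b i = 0
    · have ha : a i ≠ 0 := (hab i).resolve_right (fun h => h hb)
      refine ⟨(a i)⁻¹, 1, 0, ?_, ?_, Or.inl (by simp), fun _ => Or.inr (by simp),
        fun h => absurd hb h⟩
      · rw [inv_mul_cancel₀ ha]
        rfl
      · rw [hb, mul_zero]
        rfl
    by_cases hi : a i / b i ∈ V
    · refine ⟨(b i)⁻¹, ⟨a i / b i, hi⟩, 1, ?_, ?_, Or.inr (by simp), fun h => Or.inl ?_,
        fun _ _ => ⟨rfl, rfl⟩⟩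
      · show a i / b i = _
        rw [div_eq_mul_inv, mul_comm]
      · rw [inv_mul_cancel₀ hb]
        rfl
      · show IsLocalRing.residue V _ = 0
        rw [IsLocalRing.residue_eq_zero_iff, V.valuation_lt_one_iff]
        exact lt_of_le_of_ne ((V.valuation_le_one_iff _).2 hi) h
    · have hgt : 1 < V.valuation (a i / b i) := by
        rw [← not_le, V.valuation_le_one_iff]
        exact hi
      have hne : a i / b i ≠ 0 := by
        rintro h
        rw [h, map_zero] at hgt
        exact absurd hgt (not_lt.2 zero_le)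
      have ha : a i ≠ 0 := fun h => hne (by rw [h, zero_div])
      have hinv : (a i / b i)⁻¹ ∈ V := (V.mem_or_inv_mem (a i / b i)).resolve_left hi
      have hlt : V.valuation (a i / b i)⁻¹ < 1 := by
        rw [map_inv₀]
        exact inv_lt_one_of_one_lt₀ hgt
      refine ⟨(a i)⁻¹, 1, ⟨(a i / b i)⁻¹, hinv⟩, ?_, ?_, Or.inl (by simp), fun _ => Or.inr ?_,
        fun _ h => absurd h hi⟩
      · rw [inv_mul_cancel₀ ha]
        rfl
      · show (a i / b i)⁻¹ = _
        rw [inv_div, div_eq_mul_inv, mul_comm]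
      · show IsLocalRing.residue V _ = 0
        rw [IsLocalRing.residue_eq_zero_iff, V.valuation_lt_one_iff]
        exact hlt
  choose l ξ ζ hξ hζ hne hzero hone using hco
  have hF' : ∀ t, (F t).eval ((algebraMap (𝓞 K ⧸ v.asIdeal) κ).comp (Ideal.Quotient.mk v.asIdeal))
      (fun i => res (ξ i)) (fun i => res (ζ i)) = 0 := by
    intro t
    rw [hres, ← Form.map_eval]
    have h2 : (F t).eval π ξ ζ = 0 := by
      apply Subtype.ext
      have h3 := Form.map_eval (F t) π V.subtype ξ ζ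
      have h4 : V.subtype.comp π = σ.comp (algebraMap (𝓞 K) K) := by
        ext a
        rfl
      rw [h4] at h3
      have h5 : (fun i => V.subtype (ξ i)) = fun i => l i * a i := funext hξ
      have h6 : (fun i => V.subtype (ζ i)) = fun i => l i * b i := funext hζ
      rw [h5, h6, Form.eval_scale, hF t, zero_mul] at h3
      exact h3
    rw [h2, map_zero]
  have hbW : ∀ i ∈ W, b i ≠ 0 := by
    intro i hi h
    have h1 := hW.transcendental ⟨i, hi⟩
    apply h1
    show IsAlgebraic ℚ (a i / b i)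
    rw [h, div_zero]
    exact isAlgebraic_zero
  have hind : AlgebraicIndependent (𝓞 K ⧸ v.asIdeal) (fun i : W => res (ξ i) / res (ζ i)) := by
    have e : (fun i : W => res (ξ i) / res (ζ i)) = fun i : W => res (ξ i) := by
      funext i
      rw [(hone i (hbW i i.2) (hyW i)).1, map_one, div_one]
    rw [e, algebraicIndependent_iff]
    intro Q hQ
    obtain ⟨Q, rfl⟩ := MvPolynomial.map_surjective (Ideal.Quotient.mk v.asIdeal)
      Ideal.Quotient.mk_surjective Q
    rw [← hV2 Q]
    have h2 : MvPolynomial.eval₂ (σ.comp (algebraMap (𝓞 K) K)) (fun i : W => a i / b i) Q =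
        ((MvPolynomial.eval₂ π (fun i : W => ξ i) Q : V) : ℂ) := by
      have h3 := MvPolynomial.eval₂_comp_left V.subtype π (fun i : W => ξ i) Q
      have h4 : (fun i : W => a i / b i) = V.subtype ∘ fun i : W => ξ i := by
        funext i
        exact ((hone i (hbW i i.2) (hyW i)).2).symm
      rw [h4]
      exact h3.symm
    rw [h2, ← V.valuation_lt_one_iff, ← IsLocalRing.residue_eq_zero_iff]
    have h5 := MvPolynomial.eval₂_comp_left res π (fun i : W => ξ i) Q
    have h6 : MvPolynomial.aeval (fun i : W => res (ξ i))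
        (MvPolynomial.map (Ideal.Quotient.mk v.asIdeal) Q) =
        MvPolynomial.eval₂ (res.comp π) (res ∘ fun i : W => ξ i) Q := by
      rw [MvPolynomial.aeval_def, MvPolynomial.eval₂_map, hres]
      rfl
    rw [h6, ← h5] at hQ
    exact hQ
  have hgp := hgen κ (fun i => res (ξ i)) (fun i => res (ζ i)) hne hF' W hind
  have hc2 : {i | V.valuation (a i / b i) ≠ 1}.ncard ≤ {i | res (ξ i) = 0 ∨ res (ζ i) = 0}.ncard :=
    Set.ncard_le_ncard (fun i hi => hzero i hi) (Set.toFinite _)
  omega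

end Pool.Agent.U854.SA
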