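import Pool.Agent.U854.ZM.Core

/-!
Multihomogeneous forms with an arbitrary finite index set, general position modulo an ideal, and the
curves `y_i = (t - b_i) / (t - a_i)`.
-/

set_option autoImplicit false

namespace Pool.Agent.U854.SA

/-- A form homogeneous of degree `deg i` in the variables `(ξ i, ζ i)`. -/
structure Form (R : Type) (ι : Type) where
  deg : ι → ℕ
  coeff : ((i : ι) → Fin (deg i + 1)) → R

/-- the value of a form -/
def Form.eval {R : Type} [CommRing R] {ι : Type} [Fintype ι] [DecidableEq ι] (F : Form R ι)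
    {k : Type} [CommRing k] (π : R →+* k) (ξ ζ : ι → k) : k :=
  ∑ e, π (F.coeff e) * ∏ i, ξ i ^ (e i : ℕ) * ζ i ^ (F.deg i - e i)

theorem Form.map_eval {R : Type} [CommRing R] {ι : Type} [Fintype ι] [DecidableEq ι]
    (F : Form R ι) {k k' : Type} [CommRing k]
    [CommRing k'] (π : R →+* k) (f : k →+* k') (ξ ζ : ι → k) :
    f (F.eval π ξ ζ) = F.eval (f.comp π) (fun i => f (ξ i)) (fun i => f (ζ i)) := by
  unfold Form.eval
  rw [map_sum]
  refine Finset.sum_congr rfl fun e _ => ?_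
  rw [map_mul, map_prod]
  congr 1
  refine Finset.prod_congr rfl fun i _ => ?_
  rw [map_mul, map_pow, map_pow]

theorem Form.eval_scale {R : Type} [CommRing R] {ι : Type} [Fintype ι] [DecidableEq ι]
    (F : Form R ι) {k : Type} [CommRing k] (π : R →+* k) (l a b : ι → k) :
    F.eval π (fun i => l i * a i) (fun i => l i * b i) =
      F.eval π a b * ∏ i, l i ^ F.deg i := by
  unfold Form.eval
  rw [Finset.sum_mul]
  refine Finset.sum_congr rfl fun e _ => ?_
  rw [mul_assoc, ← Finset.prod_mul_distrib]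
  congr 1
  refine Finset.prod_congr rfl fun i _ => ?_
  have h : l i ^ F.deg i = l i ^ (e i : ℕ) * l i ^ (F.deg i - e i) := by
    rw [← pow_add]
    congr 1
    have := (e i).2
    omega
  rw [mul_pow, mul_pow, h]
  ring

/-- The reduction modulo `v` of the variety defined by the forms is in general position: for every
point over an extension of the residue field, the number of coordinates `0` and `∞` plus the number
of algebraically independent coordinates is at most `m`. -/
def GenPos {R : Type} [CommRing R] (v : Ideal R) {ι : Type} [Fintype ι] [DecidableEq ι] {T : Type}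
    (F : T → Form R ι) (m : ℕ) : Prop :=
  ∀ (k : Type) [Field k] [Algebra (R ⧸ v) k] (ξ ζ : ι → k), (∀ i, ξ i ≠ 0 ∨ ζ i ≠ 0) →
    (∀ t, (F t).eval ((algebraMap (R ⧸ v) k).comp (Ideal.Quotient.mk v)) ξ ζ = 0) →
    ∀ W : Finset ι, AlgebraicIndependent (R ⧸ v) (fun i : W => ξ i / ζ i) →
      {i | ξ i = 0 ∨ ζ i = 0}.ncard + W.card ≤ m

theorem sum_prod {k : Type} [CommRing k] {ι : Type} [Fintype ι] [DecidableEq ι]
    (deg : ι → ℕ) (u : ι → ℕ → k) (ξ ζ : ι → k) :
    ∑ e : ((i : ι) → Fin (deg i + 1)), (∏ i, u i (e i)) *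
      ∏ i, ξ i ^ (e i : ℕ) * ζ i ^ (deg i - (e i : ℕ)) =
    ∏ i, ∑ j ∈ Finset.range (deg i + 1), u i j * (ξ i ^ j * ζ i ^ (deg i - j)) := by
  have h : ∀ i, ∑ j ∈ Finset.range (deg i + 1), u i j * (ξ i ^ j * ζ i ^ (deg i - j)) =
      ∑ j : Fin (deg i + 1), u i j * (ξ i ^ (j : ℕ) * ζ i ^ (deg i - (j : ℕ))) := fun i =>
    (Fin.sum_univ_eq_sum_range (fun j => u i j * (ξ i ^ j * ζ i ^ (deg i - j))) (deg i + 1)).symm
  rw [Finset.prod_congr rfl fun i _ => h i, Finset.prod_univ_sum, Fintype.piFinset_univ]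
  refine Finset.sum_congr rfl fun e _ => ?_
  rw [← Finset.prod_mul_distrib]

variable {R : Type} [CommRing R] {ι : Type} [Fintype ι] [DecidableEq ι]

/-- coefficients of the linear factors -/
def lin (i j : ι) (α β γ δ : R) (l : ι) (k : ℕ) : R :=
  if l = i then (if k = 0 then β else α) else if l = j then (if k = 0 then δ else γ) else 1

/-- the equation between the coordinates `i` and `j` of the curve -/
def mobForm (a b : ι → R) (q : ι × ι) : Form R ι where
  deg := fun l => if l = q.1 ∨ l = q.2 then 1 else 0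
  coeff := fun e => ∏ l, lin q.1 q.2 (a q.1) (-b q.1) 1 (-1) l (e l) -
    ∏ l, lin q.1 q.2 1 (-1) (a q.2) (-b q.2) l (e l)

theorem lin_prod {k : Type} [CommRing k] (π : R →+* k) {i j : ι} (hij : i ≠ j)
    (α β γ δ : R) (ξ ζ : ι → k) :
    ∑ e : ((l : ι) → Fin ((if l = i ∨ l = j then 1 else 0) + 1)),
      π (∏ l, lin i j α β γ δ l (e l)) *
      ∏ l, ξ l ^ (e l : ℕ) * ζ l ^ ((if l = i ∨ l = j then 1 else 0) - (e l : ℕ)) =
    (π α * ξ i + π β * ζ i) * (π γ * ξ j + π δ * ζ j) := by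
  have h := sum_prod (fun l : ι => if l = i ∨ l = j then 1 else 0)
    (fun l k => π (lin i j α β γ δ l k)) ξ ζ
  simp only [map_prod] at h ⊢
  rw [h]
  rw [Fintype.prod_eq_mul i j hij]
  · have e1 : (if i = i ∨ i = j then 1 else 0) = 1 := if_pos (Or.inl rfl)
    have e2 : (if j = i ∨ j = j then 1 else 0) = 1 := if_pos (Or.inr rfl)
    rw [e1, e2, Finset.sum_range_succ, Finset.sum_range_one, Finset.sum_range_succ,
      Finset.sum_range_one]
    have f1 : lin i j α β γ δ i 0 = β := by simp [lin]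
    have f2 : lin i j α β γ δ i 1 = α := by simp [lin]
    have f3 : lin i j α β γ δ j 0 = δ := by simp [lin, hij.symm]
    have f4 : lin i j α β γ δ j 1 = γ := by simp [lin, hij.symm]
    rw [f1, f2, f3, f4]
    ring
  · rintro l ⟨hl1, hl2⟩
    have e1 : (if l = i ∨ l = j then 1 else 0) = 0 := if_neg (by tauto)
    rw [e1, Finset.sum_range_one]
    have f1 : lin i j α β γ δ l 0 = 1 := by simp [lin, hl1, hl2]
    rw [f1]
    simp

theorem mobForm_eval {k : Type} [CommRing k] (π : R →+* k) (a b : ι → R)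
    {q : ι × ι} (hq : q.1 ≠ q.2) (ξ ζ : ι → k) : (mobForm a b q).eval π ξ ζ =
      (π (a q.1) * ξ q.1 - π (b q.1) * ζ q.1) * (ξ q.2 - ζ q.2) -
      (ξ q.1 - ζ q.1) * (π (a q.2) * ξ q.2 - π (b q.2) * ζ q.2) := by
  have h1 := lin_prod π hq (a q.1) (-b q.1) 1 (-1) ξ ζ
  have h2 := lin_prod π hq 1 (-1) (a q.2) (-b q.2) ξ ζ
  have h3 : (mobForm a b q).eval π ξ ζ = (∑ e : ((l : ι) →
        Fin ((if l = q.1 ∨ l = q.2 then 1 else 0) + 1)),
      π (∏ l, lin q.1 q.2 (a q.1) (-b q.1) 1 (-1) l (e l)) *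
      ∏ l, ξ l ^ (e l : ℕ) * ζ l ^ ((if l = q.1 ∨ l = q.2 then 1 else 0) - (e l : ℕ))) -
      ∑ e : ((l : ι) → Fin ((if l = q.1 ∨ l = q.2 then 1 else 0) + 1)),
      π (∏ l, lin q.1 q.2 1 (-1) (a q.2) (-b q.2) l (e l)) *
      ∏ l, ξ l ^ (e l : ℕ) * ζ l ^ ((if l = q.1 ∨ l = q.2 then 1 else 0) - (e l : ℕ)) := by
    rw [← Finset.sum_sub_distrib]
    unfold Form.eval
    refine Finset.sum_congr rfl fun e _ => ?_
    rw [← sub_mul, ← map_sub]
    rfl
  rw [h3, h1, h2]
  simp only [map_neg, map_one]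
  ring

theorem isAlgebraic_of_linear {A k : Type} [CommRing A] [Field k] [Algebra A k] {α β : A} {x : k}
    (hα : α ≠ 0) (h : algebraMap A k α * x = algebraMap A k β) : IsAlgebraic A x := by
  refine ⟨Polynomial.C α * Polynomial.X - Polynomial.C β, ?_, ?_⟩
  · intro h0
    have := congrArg (fun P => Polynomial.coeff P 1) h0
    simp at this
    exact hα this
  · simp [h]

theorem mob_general (v : Ideal R) [v.IsMaximal] (a b : ι → R)
    (haa : ∀ i j, i ≠ j → a i - a j ∉ v) (hbb : ∀ i j, i ≠ j → b i - b j ∉ v)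
    (hab : ∀ i j, a i - b j ∉ v) :
    GenPos v (fun q : {q : ι × ι // q.1 ≠ q.2} => mobForm a b q.1) 1 := by
  classical
  intro k _ _ ξ ζ hne hF W hW
  set π : R →+* k := (algebraMap (R ⧸ v) k).comp (Ideal.Quotient.mk v) with hπ
  have hπ0 : ∀ r, r ∉ v → π r ≠ 0 := by
    intro r hr h0
    obtain ⟨s, i, hi, hsi⟩ := Ideal.IsMaximal.exists_inv (inferInstance : v.IsMaximal) hr
    have h1 : π (s * r + i) = 1 := by rw [hsi, map_one]
    have h2 : π i = 0 := by
      show algebraMap (R ⧸ v) k (Ideal.Quotient.mk v i) = 0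
      rw [Ideal.Quotient.eq_zero_iff_mem.2 hi, map_zero]
    rw [map_add, map_mul, h0, h2, mul_zero, add_zero] at h1
    exact zero_ne_one h1
  have hmk : ∀ r, r ∉ v → Ideal.Quotient.mk v r ≠ 0 := fun r hr h =>
    hr (Ideal.Quotient.eq_zero_iff_mem.1 h)
  have hform : ∀ i j, i ≠ j → (π (a i) * ξ i - π (b i) * ζ i) * (ξ j - ζ j) -
      (ξ i - ζ i) * (π (a j) * ξ j - π (b j) * ζ j) = 0 := by
    intro i j hij
    have := hF ⟨(i, j), hij⟩
    simp only at this
    rwa [mobForm_eval _ _ _ hij] at this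
  have hba : ∀ i j, b i - a j ∉ v := by
    intro i j h
    apply hab j i
    have := v.neg_mem h
    rwa [neg_sub] at this
  -- relation with a zero or pole
  have hz : ∀ i j, i ≠ j → ξ i = 0 → π (a j - b i) * ξ j = π (b j - b i) * ζ j := by
    intro i j hij h0
    have hζ : ζ i ≠ 0 := (hne i).resolve_left (fun h => h h0)
    have h1 := hform i j hij
    rw [h0] at h1
    have h2 : ζ i * (π (a j - b i) * ξ j - π (b j - b i) * ζ j) = 0 := by
      rw [map_sub, map_sub]
      linear_combination h1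
    have h3 := (mul_eq_zero.1 h2).resolve_left hζ
    exact sub_eq_zero.1 h3
  have hp : ∀ i j, i ≠ j → ζ i = 0 → π (a j - a i) * ξ j = π (b j - a i) * ζ j := by
    intro i j hij h0
    have hξ : ξ i ≠ 0 := (hne i).resolve_right (fun h => h h0)
    have h1 := hform i j hij
    rw [h0] at h1
    have h2 : ξ i * (π (a j - a i) * ξ j - π (b j - a i) * ζ j) = 0 := by
      rw [map_sub, map_sub]
      linear_combination -h1
    have h3 := (mul_eq_zero.1 h2).resolve_left hξ
    exact sub_eq_zero.1 h3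
  have hone : ∀ i j, i ≠ j → (ξ i = 0 ∨ ζ i = 0) → ξ j ≠ 0 ∧ ζ j ≠ 0 ∧
      IsAlgebraic (R ⧸ v) (ξ j / ζ j) := by
    intro i j hij hi
    obtain ⟨α, β, hα, hβ, hrel⟩ : ∃ α β : R, α ∉ v ∧ β ∉ v ∧ π α * ξ j = π β * ζ j := by
      rcases hi with h0 | h0
      · exact ⟨_, _, hab j i, hbb j i hij.symm, hz i j hij h0⟩
      · exact ⟨_, _, haa j i hij.symm, hba j i, hp i j hij h0⟩
    have h1 : ξ j ≠ 0 := by
      intro h
      rw [h, mul_zero] at hrel
      rcases mul_eq_zero.1 hrel.symm with h2 | h2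
      · exact hπ0 β hβ h2
      · rcases hne j with h3 | h3
        · exact h3 h
        · exact h3 h2
    have h2 : ζ j ≠ 0 := by
      intro h
      rw [h, mul_zero] at hrel
      rcases mul_eq_zero.1 hrel with h2 | h2
      · exact hπ0 α hα h2
      · exact h1 h2
    refine ⟨h1, h2, isAlgebraic_of_linear (hmk α hα) (β := Ideal.Quotient.mk v β) ?_⟩
    have h3 : algebraMap (R ⧸ v) k (Ideal.Quotient.mk v α) = π α := rfl
    have h4 : algebraMap (R ⧸ v) k (Ideal.Quotient.mk v β) = π β := rfl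
    rw [h3, h4, ← mul_div_assoc, hrel, mul_div_assoc, div_self h2, mul_one]
  have htr : ∀ i ∈ W, ¬ IsAlgebraic (R ⧸ v) (ξ i / ζ i) := by
    intro i hi h
    exact hW.transcendental ⟨i, hi⟩ h
  by_cases hN : ∃ i, ξ i = 0 ∨ ζ i = 0
  · obtain ⟨i, hi⟩ := hN
    have hsub : {j | ξ j = 0 ∨ ζ j = 0} ⊆ {i} := by
      intro j hj
      by_contra hji
      obtain ⟨h1, h2, -⟩ := hone i j (fun h => hji h.symm) hi
      rcases hj with h | h
      · exact h1 h
      · exact h2 h
    have hW0 : W = ∅ := by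
      rw [Finset.eq_empty_iff_forall_notMem]
      intro j hj
      by_cases hji : j = i
      · refine htr j hj ?_
        have : ξ j / ζ j = 0 := by
          rw [hji]
          rcases hi with h | h
          · rw [h, zero_div]
          · rw [h, div_zero]
        rw [this]
        exact isAlgebraic_zero
      · exact htr j hj (hone i j (fun h => hji h.symm) hi).2.2
    have h1 : {j | ξ j = 0 ∨ ζ j = 0}.ncard ≤ ({i} : Set (ι)).ncard :=
      Set.ncard_le_ncard hsub (Set.toFinite _)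
    rw [Set.ncard_singleton] at h1
    rw [hW0, Finset.card_empty]
    omega
  · push Not at hN
    have h1 : {j | ξ j = 0 ∨ ζ j = 0} = ∅ := by
      ext j
      simp only [Set.mem_ofPred_eq, Set.mem_empty_iff_false, iff_false, not_or]
      exact hN j
    rw [h1, Set.ncard_empty, zero_add]
    rw [Finset.card_le_one]
    intro i hi j hj
    by_contra hij
    rw [algebraicIndependent_iff] at hW
    let Q : MvPolynomial W (R ⧸ v) :=
      (MvPolynomial.C (Ideal.Quotient.mk v (a i)) * MvPolynomial.X ⟨i, hi⟩ -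
          MvPolynomial.C (Ideal.Quotient.mk v (b i))) * (MvPolynomial.X ⟨j, hj⟩ - 1) -
        (MvPolynomial.X ⟨i, hi⟩ - 1) *
          (MvPolynomial.C (Ideal.Quotient.mk v (a j)) * MvPolynomial.X ⟨j, hj⟩ -
            MvPolynomial.C (Ideal.Quotient.mk v (b j)))
    have hQ : MvPolynomial.aeval (fun i : W => ξ i / ζ i) Q = 0 := by
      have hζi := (hN i).2
      have hζj := (hN j).2
      have h2 := hform i j hij
      have e1 : ∀ r, algebraMap (R ⧸ v) k (Ideal.Quotient.mk v r) = π r := fun _ => rfl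
      simp only [Q, map_sub, map_mul, MvPolynomial.aeval_C, MvPolynomial.aeval_X, map_one, e1]
      have h3 : ζ i * ζ j * ((π (a i) * (ξ i / ζ i) - π (b i)) * (ξ j / ζ j - 1) -
          (ξ i / ζ i - 1) * (π (a j) * (ξ j / ζ j) - π (b j))) = 0 := by
        rw [← h2]
        field_simp
      exact (mul_eq_zero.1 h3).resolve_left (mul_ne_zero hζi hζj)
    have hQ0 := hW Q hQ
    have h4 := congrArg (MvPolynomial.eval (fun _ : W => (0 : R ⧸ v))) hQ0
    simp only [Q, map_sub, map_mul, MvPolynomial.eval_C, MvPolynomial.eval_X, map_one,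
      map_zero] at h4
    apply hmk _ (hbb i j hij)
    rw [map_sub]
    linear_combination h4

end Pool.Agent.U854.SA
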